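import Pool.Agent.L0h45.LR.Stm

/-!
# Project LR, module REG: the tuples in a class and in a box, `x` and `y` not small
-/

set_option autoImplicit false
set_option linter.all false
set_option maxHeartbeats 4000000

open Finset
open scoped Classical

namespace Pool.Agent.L0h96.LR

open Pool.Agent.N874.PP (Tup chA chB gq tau Two)
open Pool.Agent.L0h45.LR

theorem le_sq {a b : ℝ} (hb : 0 ≤ b) (h : a ^ 2 ≤ b ^ 2) : a ≤ b := by
  by_contra hc
  rw [not_le] at hc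
  nlinarith

theorem sum_tn (P : ℕ) : ∑ p ∈ Icc 1 P, (tn p : ℝ) ≤ P * (1 + Real.log P) := by
  have h1 : ∀ p ∈ Icc 1 P, (tn p : ℝ) = ∑ d ∈ Icc 1 P, if d ∣ p then (1 : ℝ) else 0 := by
    intro p hp
    rw [mem_Icc] at hp
    rw [sum_ite, sum_const_zero, add_zero, sum_const, nsmul_eq_mul, mul_one]
    congr 1
    unfold tn
    congr 1
    ext d
    rw [Nat.mem_divisors, mem_filter, mem_Icc]
    constructor
    · rintro ⟨h, h0⟩
      exact ⟨⟨Nat.pos_of_dvd_of_pos h (by omega), (Nat.le_of_dvd (by omega) h).trans hp.2⟩, h⟩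
    · rintro ⟨h, h0⟩
      exact ⟨h0, by omega⟩
  rw [sum_congr rfl h1, sum_comm]
  have h2 : ∀ d ∈ Icc 1 P, (∑ p ∈ Icc 1 P, if d ∣ p then (1 : ℝ) else 0) ≤ P * ((d : ℝ))⁻¹ := by
    intro d hd
    rw [sum_ite, sum_const_zero, add_zero, sum_const, nsmul_eq_mul, mul_one]
    have h3 : (Icc 1 P).filter (fun p => d ∣ p) = (Ioc 0 P).filter (fun p => d ∣ p) := by
      ext p
      simp only [mem_filter, mem_Icc, mem_Ioc]
      constructor <;> rintro ⟨⟨h, h'⟩, h''⟩ <;> exact ⟨⟨by omega, h'⟩, h''⟩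
    rw [h3, Nat.Ioc_filter_dvd_card_eq_div]
    calc ((P / d : ℕ) : ℝ) ≤ (P : ℝ) / d := Nat.cast_div_le
      _ = _ := by rw [div_eq_mul_inv]
  refine (sum_le_sum h2).trans ?_
  rw [← mul_sum]
  refine mul_le_mul_of_nonneg_left ?_ (Nat.cast_nonneg P)
  have h4 := harmonic_le_one_add_log P
  rw [harmonic_eq_sum_Icc] at h4
  push_cast at h4
  exact h4

theorem growth (K ε : ℝ) (hK : 0 ≤ K) (hε : 0 < ε) : ∃ L₀ : ℝ, 1 ≤ L₀ ∧ ∀ L ≥ L₀,
    K * (√L * (1 + Real.log (3 * L)) ^ 3) ≤ ε * L := by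
  refine ⟨max 1 ((1728 * K / ε) ^ 4), le_max_left _ _, fun L hL => ?_⟩
  have hL1 : 1 ≤ L := (le_max_left _ _).trans hL
  have hL2 : (1728 * K / ε) ^ 4 ≤ L := (le_max_right _ _).trans hL
  obtain ⟨w, hw⟩ : ∃ w : ℝ, w = L ^ ((12 : ℕ) : ℝ)⁻¹ := ⟨_, rfl⟩
  have hw0 : 0 ≤ w := by rw [hw]; exact Real.rpow_nonneg (by linarith) _
  have hwL : w ^ 12 = L := by
    rw [hw]
    exact Real.rpow_inv_natCast_pow (by linarith) (by norm_num)
  have hw1 : 1 ≤ w := by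
    rw [hw]
    exact Real.one_le_rpow hL1 (by positivity)
  have hlog : Real.log (3 * L) = Real.log 3 + 12 * Real.log w := by
    rw [Real.log_mul (by norm_num) (by linarith), ← hwL, Real.log_pow]
    push_cast
    rfl
  have h3 : Real.log 3 ≤ 2 := by
    have := Real.log_le_sub_one_of_pos (show (0 : ℝ) < 3 by norm_num)
    linarith
  have h4 : Real.log w ≤ w - 1 := Real.log_le_sub_one_of_pos (by linarith)
  have h5 : 0 ≤ Real.log w := Real.log_nonneg hw1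
  have h6 : 0 ≤ Real.log 3 := Real.log_nonneg (by norm_num)
  have h7 : 1 + Real.log (3 * L) ≤ 12 * w := by rw [hlog]; linarith
  have h8 : 0 ≤ 1 + Real.log (3 * L) := by rw [hlog]; linarith
  have h9 : (1 + Real.log (3 * L)) ^ 3 ≤ (12 * w) ^ 3 := pow_le_pow_left₀ h8 h7 3
  have h10 : √L = w ^ 6 := by
    rw [← hwL, show w ^ 12 = (w ^ 6) ^ 2 by ring]
    exact Real.sqrt_sq (by positivity)
  have h11 : 1728 * K / ε ≤ w ^ 3 := by
    refine (pow_le_pow_iff_left₀ (by positivity) (by positivity) (n := 4) (by norm_num)).1 ?_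
    calc (1728 * K / ε) ^ 4 ≤ L := hL2
      _ = (w ^ 3) ^ 4 := by rw [← hwL]; ring
  rw [div_le_iff₀ hε] at h11
  calc K * (√L * (1 + Real.log (3 * L)) ^ 3) ≤ K * (w ^ 6 * (12 * w) ^ 3) := by
        rw [h10]
        gcongr
    _ = (1728 * K) * w ^ 9 := by ring
    _ ≤ (w ^ 3 * ε) * w ^ 9 := mul_le_mul_of_nonneg_right h11 (by positivity)
    _ = ε * L := by rw [← hwL]; ring

/-- the bound for one pair -/
theorem pt_bound {C L δ tg tp : ℝ} {M T n p q g : ℕ} (hC : 0 < C) (hL : 1 ≤ L) (hδ : 0 < δ)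
    (hM : 1 ≤ M) (hT : 1 ≤ T) (hp : 1 ≤ p) (hq : 1 ≤ q) (hg : 1 ≤ g) (htg : 0 ≤ tg) (htp : 0 ≤ tp)
    (h1 : δ * L ≤ p * (T : ℝ) ^ 2) (h2 : δ * L ≤ q * (T : ℝ)) :
    C * (tg * √(g : ℝ)) * ((g : ℝ) / p) * (L * (T * √(T : ℝ)) * √((p : ℝ) / q) / M + 1) *
        (L / ((g : ℝ) * M) + 1) +
      C * n * √(M : ℝ) * (L / √(p : ℝ)) * (1 + Real.log (3 * L)) ^ 2 * tp ≤
    C * (L ^ 2 * (T * √(T : ℝ)) / (M : ℝ) ^ 2) * (tg * √(g : ℝ) / √((p : ℝ) * q)) +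
      C * ((T : ℝ) ^ 3 / δ + (T : ℝ) ^ 2 / δ + 1) * (tg * (g * √(g : ℝ))) +
      C * n * √(M : ℝ) * (T / √δ) * (√L * (1 + Real.log (3 * L)) ^ 2) * tp := by
  have hL0 : 0 < L := by linarith
  have hM0 : (1 : ℝ) ≤ M := by exact_mod_cast hM
  have hT0 : (1 : ℝ) ≤ T := by exact_mod_cast hT
  have hp0 : (1 : ℝ) ≤ p := by exact_mod_cast hp
  have hq0 : (1 : ℝ) ≤ q := by exact_mod_cast hq
  have hg0 : (1 : ℝ) ≤ g := by exact_mod_cast hg
  have hsp : 0 < √(p : ℝ) := Real.sqrt_pos.2 (by linarith)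
  have hsq : 0 < √(q : ℝ) := Real.sqrt_pos.2 (by linarith)
  have hsg : 0 < √(g : ℝ) := Real.sqrt_pos.2 (by linarith)
  have hsT : 0 < √(T : ℝ) := Real.sqrt_pos.2 (by linarith)
  have hsδ : 0 < √δ := Real.sqrt_pos.2 hδ
  have hsL : 0 < √L := Real.sqrt_pos.2 hL0
  have ep : √(p : ℝ) * √(p : ℝ) = p := Real.mul_self_sqrt (by linarith)
  have eT : √(T : ℝ) * √(T : ℝ) = T := Real.mul_self_sqrt (by linarith)
  have eL : √L * √L = L := Real.mul_self_sqrt (by linarith)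
  have eδ : √δ * √δ = δ := Real.mul_self_sqrt hδ.le
  have hA : 0 ≤ tg * √(g : ℝ) := mul_nonneg htg hsg.le
  -- the four terms
  have key : ((g : ℝ) / p) * (L * (T * √(T : ℝ)) * √((p : ℝ) / q) / M + 1) * (L / ((g : ℝ) * M) + 1) ≤
      L ^ 2 * (T * √(T : ℝ)) / (M : ℝ) ^ 2 * (1 / √((p : ℝ) * q)) +
        ((T : ℝ) ^ 3 / δ + (T : ℝ) ^ 2 / δ + 1) * g := by
    have hpq : √((p : ℝ) * q) = √(p : ℝ) * √(q : ℝ) := Real.sqrt_mul (by linarith) _
    have hpq' : √((p : ℝ) / q) = √(p : ℝ) / √(q : ℝ) := Real.sqrt_div (by linarith) _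
    have e1 : ((g : ℝ) / p) * (L * (T * √(T : ℝ)) * √((p : ℝ) / q) / M + 1) * (L / ((g : ℝ) * M) + 1) =
        L ^ 2 * (T * √(T : ℝ)) / (M : ℝ) ^ 2 * (√(p : ℝ) / √(q : ℝ) / p) +
        (g * (L * (T * √(T : ℝ)) * (√(p : ℝ) / √(q : ℝ) / p) / M) + L / (M * p) + g / p) := by
      rw [hpq']
      field_simp
      ring
    have e2 : √(p : ℝ) / √(q : ℝ) / p = 1 / (√(p : ℝ) * √(q : ℝ)) := by
      rw [div_div, div_eq_div_iff (by positivity) (by positivity)]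
      calc √(p : ℝ) * (√(p : ℝ) * √(q : ℝ)) = (√(p : ℝ) * √(p : ℝ)) * √(q : ℝ) := by ring
        _ = 1 * (√(q : ℝ) * p) := by rw [ep]; ring
    rw [e1, e2, hpq]
    -- second term
    have f0 : δ * L ≤ √(p : ℝ) * √(q : ℝ) * (T * √(T : ℝ)) := by
      have g1 : (δ * L) ^ 2 ≤ (√(p : ℝ) * √(q : ℝ) * (T * √(T : ℝ))) ^ 2 := by
        have g2 : (√(p : ℝ) * √(q : ℝ) * (T * √(T : ℝ))) ^ 2 = (p * (T : ℝ) ^ 2) * (q * (T : ℝ)) := by
          rw [← hpq]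
          calc (√((p : ℝ) * q) * (T * √(T : ℝ))) ^ 2 =
              (√((p : ℝ) * q) * √((p : ℝ) * q)) * (T : ℝ) ^ 2 * (√(T : ℝ) * √(T : ℝ)) := by ring
            _ = _ := by rw [Real.mul_self_sqrt (by positivity), eT]; ring
        rw [g2, sq]
        exact mul_le_mul h1 h2 (by positivity) (by positivity)
      exact le_sq (by positivity) g1
    have f1 : L * (T * √(T : ℝ)) * (1 / (√(p : ℝ) * √(q : ℝ))) ≤ (T : ℝ) ^ 3 / δ := by
      rw [mul_one_div, div_le_div_iff₀ (by positivity) hδ]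
      calc L * (T * √(T : ℝ)) * δ = (δ * L) * (T * √(T : ℝ)) := by ring
        _ ≤ (√(p : ℝ) * √(q : ℝ) * (T * √(T : ℝ))) * (T * √(T : ℝ)) :=
            mul_le_mul_of_nonneg_right f0 (by positivity)
        _ = √(p : ℝ) * √(q : ℝ) * ((T : ℝ) ^ 2 * (√(T : ℝ) * √(T : ℝ))) := by ring
        _ = (T : ℝ) ^ 3 * (√(p : ℝ) * √(q : ℝ)) := by rw [eT]; ring
    have f2 : L * (T * √(T : ℝ)) * (1 / (√(p : ℝ) * √(q : ℝ))) / M ≤ (T : ℝ) ^ 3 / δ :=
      (div_le_self (by positivity) hM0).trans f1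
    have f3 : L / (M * p) ≤ (T : ℝ) ^ 2 / δ := by
      rw [div_le_div_iff₀ (by positivity) hδ]
      calc L * δ = δ * L := by ring
        _ ≤ p * (T : ℝ) ^ 2 := h1
        _ ≤ M * (p * (T : ℝ) ^ 2) := le_mul_of_one_le_left (by positivity) hM0
        _ = (T : ℝ) ^ 2 * (M * p) := by ring
    have f4 : (g : ℝ) / p ≤ g := div_le_self (by linarith) hp0
    have f5 : (T : ℝ) ^ 2 / δ ≤ (T : ℝ) ^ 2 / δ * g := le_mul_of_one_le_right (by positivity) hg0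
    have f6 : (g : ℝ) * (L * (T * √(T : ℝ)) * (1 / (√(p : ℝ) * √(q : ℝ))) / M) ≤ g * ((T : ℝ) ^ 3 / δ) :=
      mul_le_mul_of_nonneg_left f2 (by linarith)
    have f7 : ((T : ℝ) ^ 3 / δ + (T : ℝ) ^ 2 / δ + 1) * g =
        g * ((T : ℝ) ^ 3 / δ) + (T : ℝ) ^ 2 / δ * g + g := by ring
    rw [f7]
    linarith
  have key2 : L / √(p : ℝ) ≤ T / √δ * √L := by
    rw [div_mul_eq_mul_div, div_le_div_iff₀ hsp hsδ]
    have g1 : √δ * √L ≤ √(p : ℝ) * T := by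
      have g2 : (√δ * √L) ^ 2 ≤ (√(p : ℝ) * T) ^ 2 := by
        calc (√δ * √L) ^ 2 = (√δ * √δ) * (√L * √L) := by ring
          _ = δ * L := by rw [eδ, eL]
          _ ≤ p * (T : ℝ) ^ 2 := h1
          _ = (√(p : ℝ) * √(p : ℝ)) * (T : ℝ) ^ 2 := by rw [ep]
          _ = _ := by ring
      exact le_sq (by positivity) g2
    calc L * √δ = (√δ * √L) * √L := by rw [mul_assoc, eL]; ring
      _ ≤ (√(p : ℝ) * T) * √L := mul_le_mul_of_nonneg_right g1 hsL.le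
      _ = T * √L * √(p : ℝ) := by ring
  refine add_le_add ?_ ?_
  · calc C * (tg * √(g : ℝ)) * ((g : ℝ) / p) * (L * (T * √(T : ℝ)) * √((p : ℝ) / q) / M + 1) *
        (L / ((g : ℝ) * M) + 1) = C * (tg * √(g : ℝ)) * (((g : ℝ) / p) *
          (L * (T * √(T : ℝ)) * √((p : ℝ) / q) / M + 1) * (L / ((g : ℝ) * M) + 1)) := by ring
      _ ≤ C * (tg * √(g : ℝ)) * (L ^ 2 * (T * √(T : ℝ)) / (M : ℝ) ^ 2 * (1 / √((p : ℝ) * q)) +
        ((T : ℝ) ^ 3 / δ + (T : ℝ) ^ 2 / δ + 1) * g) :=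
          mul_le_mul_of_nonneg_left key (mul_nonneg hC.le hA)
      _ = _ := by ring
  · have h8 : 0 ≤ C * n * √(M : ℝ) := by positivity
    have h9 : 0 ≤ (1 + Real.log (3 * L)) ^ 2 * tp := mul_nonneg (sq_nonneg _) htp
    calc C * n * √(M : ℝ) * (L / √(p : ℝ)) * (1 + Real.log (3 * L)) ^ 2 * tp =
        C * n * √(M : ℝ) * (L / √(p : ℝ)) * ((1 + Real.log (3 * L)) ^ 2 * tp) := by ring
      _ ≤ C * n * √(M : ℝ) * (T / √δ * √L) * ((1 + Real.log (3 * L)) ^ 2 * tp) := by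
          refine mul_le_mul_of_nonneg_right (mul_le_mul_of_nonneg_left key2 h8) h9
      _ = _ := by ring

/-- the covering by the pairs -/
theorem card_cover {M P R : ℕ} {β : Tup ℤ} {S : Finset (Tup ℤ)} (hMo : Odd M)
    (hβc : Nat.Coprime (Int.gcd β.x β.y) M)
    (hS : ∀ B ∈ S, (M : ℤ) ∣ B.x - β.x ∧ (M : ℤ) ∣ B.y - β.y ∧ B.x ≠ 0 ∧ B.y ≠ 0 ∧
      B.x.natAbs ≤ P ∧ B.y.natAbs ≤ R) :
    (S.card : ℝ) ≤ ∑ σ ∈ ({1, -1} : Finset ℤ), ∑ τ ∈ ({1, -1} : Finset ℤ),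
      ∑ p ∈ (Icc 1 P).filter (fun x : ℕ => (M : ℤ) ∣ x - σ * β.x),
        ∑ q ∈ (Icc 1 R).filter (fun y : ℕ => (M : ℤ) ∣ y - τ * β.y ∧ Nat.Coprime (Nat.gcd p (2 * y)) M),
          ((S.filter fun B => B.x = σ * p ∧ B.y = τ * q).card : ℝ) := by
  have hsub : S ⊆ ({1, -1} : Finset ℤ).biUnion fun σ => ({1, -1} : Finset ℤ).biUnion fun τ =>
      ((Icc 1 P).filter (fun x : ℕ => (M : ℤ) ∣ x - σ * β.x)).biUnion fun p =>
        ((Icc 1 R).filter (fun y : ℕ => (M : ℤ) ∣ y - τ * β.y ∧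
          Nat.Coprime (Nat.gcd p (2 * y)) M)).biUnion fun q =>
            S.filter fun B => B.x = σ * p ∧ B.y = τ * q := by
    intro B hB
    obtain ⟨h1, h2, h3, h4, h5, h6⟩ := hS B hB
    have sg : ∀ x : ℤ, ∃ σ ∈ ({1, -1} : Finset ℤ), x = σ * x.natAbs ∧ (x.natAbs : ℤ) = σ * x := by
      intro x
      rcases le_total 0 x with h | h
      · refine ⟨1, by simp, ?_, ?_⟩ <;> omega
      · refine ⟨-1, by simp, ?_, ?_⟩ <;> omega
    obtain ⟨σ, hσ, e1, e2⟩ := sg B.x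
    obtain ⟨τ, hτ, e3, e4⟩ := sg B.y
    rw [mem_biUnion]
    refine ⟨σ, hσ, ?_⟩
    rw [mem_biUnion]
    refine ⟨τ, hτ, ?_⟩
    rw [mem_biUnion]
    refine ⟨B.x.natAbs, ?_, ?_⟩
    · rw [mem_filter, mem_Icc]
      refine ⟨⟨Int.natAbs_pos.2 h3, h5⟩, ?_⟩
      rw [e2, ← mul_sub]
      exact dvd_mul_of_dvd_right h1 _
    rw [mem_biUnion]
    refine ⟨B.y.natAbs, ?_, ?_⟩
    · rw [mem_filter, mem_Icc]
      refine ⟨⟨Int.natAbs_pos.2 h4, h6⟩, ?_, ?_⟩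
      · rw [e4, ← mul_sub]
        exact dvd_mul_of_dvd_right h2 _
      · refine Nat.coprime_of_dvd fun l hl hl1 hl2 => ?_
        have g1 : l ∣ B.x.natAbs := hl1.trans (Nat.gcd_dvd_left _ _)
        have g2 : l ∣ 2 * B.y.natAbs := hl1.trans (Nat.gcd_dvd_right _ _)
        have g3 : l ≠ 2 := by
          rintro rfl
          exact (Nat.not_even_iff_odd.2 hMo) (even_iff_two_dvd.2 hl2)
        have g4 : l ∣ B.y.natAbs := by
          rcases (Nat.Prime.dvd_mul hl).1 g2 with h | h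
          · exact absurd ((Nat.prime_dvd_prime_iff_eq hl Nat.prime_two).1 h) g3
          · exact h
        have g5 : (l : ℤ) ∣ B.x := Int.natCast_dvd.2 g1
        have g6 : (l : ℤ) ∣ B.y := Int.natCast_dvd.2 g4
        have g7 : (l : ℤ) ∣ (M : ℤ) := by exact_mod_cast hl2
        have g8 : (l : ℤ) ∣ β.x := (dvd_sub_right g5).1 (g7.trans h1)
        have g9 : (l : ℤ) ∣ β.y := (dvd_sub_right g6).1 (g7.trans h2)
        have g10 : l ∣ Int.gcd β.x β.y := Int.natCast_dvd_natCast.1 (Int.dvd_coe_gcd g8 g9)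
        have g11 : l ∣ 1 := by
          rw [← hβc]
          exact Nat.dvd_gcd g10 hl2
        exact hl.one_lt.ne' (Nat.dvd_one.1 g11)
    · rw [mem_filter]
      exact ⟨hB, e1, e3⟩
  have h1 : S.card ≤ ∑ σ ∈ ({1, -1} : Finset ℤ), ∑ τ ∈ ({1, -1} : Finset ℤ),
      ∑ p ∈ (Icc 1 P).filter (fun x : ℕ => (M : ℤ) ∣ x - σ * β.x),
        ∑ q ∈ (Icc 1 R).filter (fun y : ℕ => (M : ℤ) ∣ y - τ * β.y ∧ Nat.Coprime (Nat.gcd p (2 * y)) M),
          (S.filter fun B => B.x = σ * p ∧ B.y = τ * q).card := by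
    refine (card_le_card hsub).trans (card_biUnion_le.trans (sum_le_sum fun σ _ => ?_))
    refine card_biUnion_le.trans (sum_le_sum fun τ _ => ?_)
    refine card_biUnion_le.trans (sum_le_sum fun p _ => ?_)
    exact card_biUnion_le
  calc (S.card : ℝ) ≤ ((∑ σ ∈ ({1, -1} : Finset ℤ), ∑ τ ∈ ({1, -1} : Finset ℤ),
      ∑ p ∈ (Icc 1 P).filter (fun x : ℕ => (M : ℤ) ∣ x - σ * β.x),
        ∑ q ∈ (Icc 1 R).filter (fun y : ℕ => (M : ℤ) ∣ y - τ * β.y ∧ Nat.Coprime (Nat.gcd p (2 * y)) M),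
          (S.filter fun B => B.x = σ * p ∧ B.y = τ * q).card : ℕ) : ℝ) := by exact_mod_cast h1
    _ = _ := by push_cast; rfl

/-- REG -/
theorem t_REG : S_FIB → S_W1 → S_W2 → S_REG := by
  rintro ⟨C, hC, hF⟩ ⟨C1, hC1, hW1⟩ ⟨C2, hC2, hW2⟩
  refine ⟨4 * C * C1, by positivity, ?_⟩
  intro M T a δ ε hM hMo hT hδ hε
  have hM0 : (1 : ℝ) ≤ M := by exact_mod_cast hM
  have hT0 : (1 : ℝ) ≤ T := by exact_mod_cast hT
  obtain ⟨n, hn1, hn⟩ : ∃ n : ℕ, 1 ≤ n ∧ 36 / δ ≤ n :=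
    ⟨max 1 ⌈36 / δ⌉₊, le_max_left _ _, (Nat.le_ceil _).trans (by exact_mod_cast le_max_right _ _)⟩
  obtain ⟨N₀, hN₀⟩ := hW1 M (ε / (8 * C)) hM hMo (by positivity)
  obtain ⟨K1, hK1⟩ : ∃ K1 : ℝ, K1 = C * ((T : ℝ) ^ 3 / δ + (T : ℝ) ^ 2 / δ + 1) := ⟨_, rfl⟩
  obtain ⟨K2, hK2⟩ : ∃ K2 : ℝ, K2 = C * n * √(M : ℝ) * (T / √δ) := ⟨_, rfl⟩
  have hK10 : 0 ≤ K1 := by rw [hK1]; positivity
  have hK20 : 0 ≤ K2 := by rw [hK2]; positivity
  obtain ⟨L1, hL1, hgrow⟩ := growth (4 * (K1 * C2 + K2)) (ε / 2) (by positivity) (by positivity)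
  refine ⟨max L1 (((N₀ + 1 : ℕ) : ℝ) * (T : ℝ) ^ 2), ?_⟩
  intro L hL β hβa hβc S hS
  have hLL1 : L1 ≤ L := (le_max_left _ _).trans hL
  have hLN : ((N₀ + 1 : ℕ) : ℝ) * (T : ℝ) ^ 2 ≤ L := (le_max_right _ _).trans hL
  have hL1' : 1 ≤ L := hL1.trans hLL1
  have hL0 : 0 < L := by linarith
  obtain ⟨P, hP⟩ : ∃ P : ℕ, P = ⌊L / (T : ℝ) ^ 2⌋₊ := ⟨_, rfl⟩
  obtain ⟨R, hR⟩ : ∃ R : ℕ, R = ⌊L / (T : ℝ)⌋₊ := ⟨_, rfl⟩
  have hT2 : (1 : ℝ) ≤ (T : ℝ) ^ 2 := one_le_pow₀ hT0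
  have hT12 : (T : ℝ) ≤ (T : ℝ) ^ 2 := by nlinarith
  have hPN : N₀ + 1 ≤ P := by
    rw [hP]
    refine Nat.le_floor ?_
    rw [le_div_iff₀ (by positivity)]
    exact hLN
  have hRN : N₀ + 1 ≤ R := by
    rw [hR]
    refine Nat.le_floor ?_
    rw [le_div_iff₀ (by positivity)]
    exact (mul_le_mul_of_nonneg_left hT12 (Nat.cast_nonneg _)).trans hLN
  have hPL : (P : ℝ) ≤ L / (T : ℝ) ^ 2 := by rw [hP]; exact Nat.floor_le (by positivity)
  have hRL : (R : ℝ) ≤ L / (T : ℝ) := by rw [hR]; exact Nat.floor_le (by positivity)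
  have hPL1 : (P : ℝ) ≤ L := hPL.trans (div_le_self hL0.le hT2)
  have hRL1 : (R : ℝ) ≤ L := hRL.trans (div_le_self hL0.le hT0)
  have hP1 : (1 : ℝ) ≤ P := by exact_mod_cast (by omega : 1 ≤ P)
  have hδL : 0 < δ * L := mul_pos hδ hL0
  obtain ⟨lg, hlg⟩ : ∃ lg : ℝ, lg = 1 + Real.log (3 * L) := ⟨_, rfl⟩
  have hlg1 : 1 ≤ lg := by
    rw [hlg]
    have := Real.log_nonneg (by linarith : (1 : ℝ) ≤ 3 * L)
    linarith
  have hlgP : 1 + Real.log P ≤ lg := by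
    rw [hlg]
    have := Real.log_le_log (by linarith) (by linarith : (P : ℝ) ≤ 3 * L)
    linarith
  have hlgP0 : 0 ≤ 1 + Real.log P := by
    have := Real.log_nonneg hP1
    linarith
  -- facts on the tuples
  have hx0 : ∀ B ∈ S, B.x ≠ 0 := by
    intro B hB h
    have := (hS B hB).2.2.2.1
    rw [h] at this
    simp at this
    linarith
  have hy0 : ∀ B ∈ S, B.y ≠ 0 := by
    intro B hB h
    have := (hS B hB).2.2.2.2
    rw [h] at this
    simp at this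
    linarith
  have hnx : ∀ x : ℤ, |(x : ℝ)| = (x.natAbs : ℝ) := fun x => by
    rw [Nat.cast_natAbs, Int.cast_abs]
  have hcov := card_cover (P := P) (R := R) hMo hβc (S := S) fun B hB => by
    obtain ⟨h1, h2, h3, h4, h5⟩ := hS B hB
    refine ⟨h2.x, h2.y, hx0 B hB, hy0 B hB, ?_, ?_⟩
    · rw [hP]
      refine Nat.le_floor ?_
      rw [← hnx, le_div_iff₀ (by positivity)]
      exact h3.x
    · rw [hR]
      refine Nat.le_floor ?_
      rw [← hnx, le_div_iff₀ (by positivity)]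
      exact h3.y
  -- the bound for one pair
  have hpair : ∀ σ ∈ ({1, -1} : Finset ℤ), ∀ τ ∈ ({1, -1} : Finset ℤ),
      ∀ p ∈ (Icc 1 P).filter (fun x : ℕ => (M : ℤ) ∣ x - σ * β.x),
      ∀ q ∈ (Icc 1 R).filter (fun y : ℕ => (M : ℤ) ∣ y - τ * β.y ∧ Nat.Coprime (Nat.gcd p (2 * y)) M),
      ((S.filter fun B => B.x = σ * p ∧ B.y = τ * q).card : ℝ) ≤
        C * (L ^ 2 * (T * √(T : ℝ)) / (M : ℝ) ^ 2) * ((tn (Nat.gcd p (2 * q)) : ℝ) *
          √(Nat.gcd p (2 * q) : ℝ) / √((p : ℝ) * q)) +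
        K1 * ((tn (Nat.gcd p (2 * q)) : ℝ) * (Nat.gcd p (2 * q) * √(Nat.gcd p (2 * q) : ℝ))) +
        K2 * (√L * lg ^ 2) * (tn p : ℝ) := by
    intro σ hσ τ hτ p hp q hq
    rw [mem_filter, mem_Icc] at hp hq
    rcases (S.filter fun B => B.x = σ * p ∧ B.y = τ * q).eq_empty_or_nonempty with he | ⟨B, hB⟩
    · rw [he, card_empty, Nat.cast_zero]
      positivity
    rw [mem_filter] at hB
    obtain ⟨hBS, hBx, hBy⟩ := hB
    have hσ1 : σ.natAbs = 1 := by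
      rw [mem_insert, mem_singleton] at hσ
      rcases hσ with rfl | rfl <;> rfl
    have hτ1 : τ.natAbs = 1 := by
      rw [mem_insert, mem_singleton] at hτ
      rcases hτ with rfl | rfl <;> rfl
    have ex1 : (σ * (p : ℤ)).natAbs = p := by rw [Int.natAbs_mul, hσ1, one_mul, Int.natAbs_natCast]
    have ey1 : (τ * (q : ℤ)).natAbs = q := by rw [Int.natAbs_mul, hτ1, one_mul, Int.natAbs_natCast]
    have eg : Int.gcd (σ * (p : ℤ)) (2 * (τ * (q : ℤ))) = Nat.gcd p (2 * q) := by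
      rw [Int.gcd_def, ex1, Int.natAbs_mul, ey1]
      rfl
    have exr : |((σ * (p : ℤ) : ℤ) : ℝ)| = p := by rw [hnx, ex1]
    have eyr : |((τ * (q : ℤ) : ℤ) : ℝ)| = q := by rw [hnx, ey1]
    obtain ⟨h1, h2, h3, h4, h5⟩ := hS B hBS
    have h4' := h4
    have h5' := h5
    have h3x := h3.x
    have h3y := h3.y
    rw [hBx, exr] at h4' h3x
    rw [hBy, eyr] at h5' h3y
    have hfib := hF L M T n a (σ * p) (τ * q) β hL1' hM hMo hT hn1 (by rw [← hBx]; exact hx0 B hBS)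
      (by rw [← hBy]; exact hy0 B hBS) (by
        refine Nat.coprime_of_dvd fun l hl hl1 hl2 => ?_
        have k1 : (l : ℤ) ∣ B.x := by
          rw [hBx]
          exact (Int.natCast_dvd_natCast.2 hl1).trans (Int.gcd_dvd_left _ _)
        have k2 : (l : ℤ) ∣ B.y := by
          rw [hBy]
          exact (Int.natCast_dvd_natCast.2 hl1).trans (Int.gcd_dvd_right _ _)
        have g7 : (l : ℤ) ∣ (M : ℤ) := by exact_mod_cast hl2
        have g8 : (l : ℤ) ∣ β.x := (dvd_sub_right k1).1 (g7.trans h2.x)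
        have g9 : (l : ℤ) ∣ β.y := (dvd_sub_right k2).1 (g7.trans h2.y)
        have g10 : l ∣ Int.gcd β.x β.y := Int.natCast_dvd_natCast.1 (Int.dvd_coe_gcd g8 g9)
        have g11 : l ∣ 1 := by
          rw [← hβc]
          exact Nat.dvd_gcd g10 hl2
        exact hl.one_lt.ne' (Nat.dvd_one.1 g11))
      (by rw [← hBx]; exact h2.x) (by rw [← hBy]; exact h2.y) hβa (by rw [exr]; exact h3x)
      (by rw [eyr]; exact h3y) (by
        rw [exr]
        rw [div_le_iff₀ hδ] at hn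
        calc 36 * L ≤ (n * δ) * L := mul_le_mul_of_nonneg_right hn hL0.le
          _ = n * (δ * L) := by ring
          _ ≤ n * (p * (T : ℝ) ^ 2) := mul_le_mul_of_nonneg_left h4' (Nat.cast_nonneg _))
      (S.filter fun B => B.x = σ * p ∧ B.y = τ * q) (fun B' hB' => by
        rw [mem_filter] at hB'
        obtain ⟨k1, k2, k3, k4, k5⟩ := hS B' hB'.1
        exact ⟨hB'.2.1, hB'.2.2, k1, k2, k3⟩)
    rw [eg, exr, eyr, ex1] at hfib
    refine hfib.trans ?_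
    have hb := pt_bound (C := C) (L := L) (δ := δ) (tg := (tn (Nat.gcd p (2 * q)) : ℝ))
      (tp := (tn p : ℝ)) (M := M) (T := T) (n := n) (p := p) (q := q) (g := Nat.gcd p (2 * q))
      hC hL1' hδ hM hT hp.1.1 hq.1.1 (Nat.gcd_pos_of_pos_left _ hp.1.1) (Nat.cast_nonneg _)
      (Nat.cast_nonneg _) h4' h5'
    rw [← hK1, ← hK2, ← hlg] at hb
    rw [← hlg]
    exact hb
  -- the sums
  have hW2' := hW2 P R (by omega) (by omega)
  have htn := sum_tn P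
  have hone : ∀ σ ∈ ({1, -1} : Finset ℤ), ∀ τ ∈ ({1, -1} : Finset ℤ),
      ∑ p ∈ (Icc 1 P).filter (fun x : ℕ => (M : ℤ) ∣ x - σ * β.x),
        ∑ q ∈ (Icc 1 R).filter (fun y : ℕ => (M : ℤ) ∣ y - τ * β.y ∧ Nat.Coprime (Nat.gcd p (2 * y)) M),
          ((S.filter fun B => B.x = σ * p ∧ B.y = τ * q).card : ℝ) ≤
      C * (L ^ 2 * (T * √(T : ℝ)) / (M : ℝ) ^ 2) * ((C1 / (M : ℝ) ^ 2 + ε / (8 * C)) * √((P : ℝ) * R)) +
      K1 * (C2 * (P * R) * √(P : ℝ) * (1 + Real.log P)) +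
      K2 * (√L * lg ^ 2) * (R * (P * (1 + Real.log P))) := by
    intro σ hσ τ hτ
    refine (sum_le_sum fun p hp => sum_le_sum fun q hq => hpair σ hσ τ hτ p hp q hq).trans ?_
    simp only [sum_add_distrib, ← mul_sum]
    refine add_le_add (add_le_add ?_ ?_) ?_
    · refine mul_le_mul_of_nonneg_left ?_ (by positivity)
      exact hN₀ P R (by omega) (by omega) (σ * β.x) (τ * β.y)
    · refine mul_le_mul_of_nonneg_left ?_ hK10
      refine le_trans ?_ hW2'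
      refine (sum_le_sum fun p hp => sum_le_sum_of_subset_of_nonneg (filter_subset _ _)
        fun q _ _ => by positivity).trans ?_
      exact sum_le_sum_of_subset_of_nonneg (filter_subset _ _) fun p _ _ =>
        sum_nonneg fun q _ => by positivity
    · refine mul_le_mul_of_nonneg_left ?_ (by positivity)
      calc ∑ p ∈ (Icc 1 P).filter (fun x : ℕ => (M : ℤ) ∣ x - σ * β.x),
          ∑ q ∈ (Icc 1 R).filter (fun y : ℕ => (M : ℤ) ∣ y - τ * β.y ∧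
            Nat.Coprime (Nat.gcd p (2 * y)) M), (tn p : ℝ) ≤
          ∑ p ∈ (Icc 1 P).filter (fun x : ℕ => (M : ℤ) ∣ x - σ * β.x), ∑ q ∈ Icc 1 R, (tn p : ℝ) :=
            sum_le_sum fun p hp => sum_le_sum_of_subset_of_nonneg (filter_subset _ _)
              fun q _ _ => by positivity
        _ ≤ ∑ p ∈ Icc 1 P, ∑ q ∈ Icc 1 R, (tn p : ℝ) :=
            sum_le_sum_of_subset_of_nonneg (filter_subset _ _) fun p _ _ =>
              sum_nonneg fun q _ => by positivity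
        _ = R * ∑ p ∈ Icc 1 P, (tn p : ℝ) := by
            rw [mul_sum]
            refine sum_congr rfl fun p _ => ?_
            rw [sum_const, nsmul_eq_mul, Nat.card_Icc]
            simp
        _ ≤ R * (P * (1 + Real.log P)) := mul_le_mul_of_nonneg_left htn (Nat.cast_nonneg _)
  have hfour : (S.card : ℝ) ≤ 4 * (C * (L ^ 2 * (T * √(T : ℝ)) / (M : ℝ) ^ 2) *
      ((C1 / (M : ℝ) ^ 2 + ε / (8 * C)) * √((P : ℝ) * R)) +
      K1 * (C2 * (P * R) * √(P : ℝ) * (1 + Real.log P)) +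
      K2 * (√L * lg ^ 2) * (R * (P * (1 + Real.log P)))) := by
    refine hcov.trans ((sum_le_sum fun σ hσ => sum_le_sum fun τ hτ => hone σ hσ τ hτ).trans ?_)
    rw [sum_const, sum_const]
    have : ({1, -1} : Finset ℤ).card = 2 := by decide
    rw [this]
    simp only [nsmul_eq_mul]
    push_cast
    linarith
  -- the estimates
  have hsT : 0 < √(T : ℝ) := Real.sqrt_pos.2 (by linarith)
  have eT : √(T : ℝ) * √(T : ℝ) = T := Real.mul_self_sqrt (by linarith)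
  have hPR : √((P : ℝ) * R) ≤ L / (T * √(T : ℝ)) := by
    rw [le_div_iff₀ (by positivity)]
    refine le_sq hL0.le ?_
    calc (√((P : ℝ) * R) * (T * √(T : ℝ))) ^ 2 =
        (√((P : ℝ) * R) * √((P : ℝ) * R)) * ((T : ℝ) ^ 2 * (√(T : ℝ) * √(T : ℝ))) := by ring
      _ = (P * (T : ℝ) ^ 2) * (R * (T : ℝ)) := by rw [Real.mul_self_sqrt (by positivity), eT]; ring
      _ ≤ L * L := by
          rw [le_div_iff₀ (by positivity)] at hPL hRL
          exact mul_le_mul hPL hRL (by positivity) hL0.le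
      _ = L ^ 2 := by ring
  have t1 : C * (L ^ 2 * (T * √(T : ℝ)) / (M : ℝ) ^ 2) *
      ((C1 / (M : ℝ) ^ 2 + ε / (8 * C)) * √((P : ℝ) * R)) ≤ C * C1 / (M : ℝ) ^ 4 * L ^ 3 + ε / 8 * L ^ 3 := by
    calc C * (L ^ 2 * (T * √(T : ℝ)) / (M : ℝ) ^ 2) *
        ((C1 / (M : ℝ) ^ 2 + ε / (8 * C)) * √((P : ℝ) * R)) ≤
        C * (L ^ 2 * (T * √(T : ℝ)) / (M : ℝ) ^ 2) *
        ((C1 / (M : ℝ) ^ 2 + ε / (8 * C)) * (L / (T * √(T : ℝ)))) := by
          refine mul_le_mul_of_nonneg_left (mul_le_mul_of_nonneg_left hPR (by positivity))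
            (by positivity)
      _ = C * C1 / (M : ℝ) ^ 4 * L ^ 3 + ε / 8 * L ^ 3 / (M : ℝ) ^ 2 := by
          field_simp
      _ ≤ C * C1 / (M : ℝ) ^ 4 * L ^ 3 + ε / 8 * L ^ 3 := by
          have : ε / 8 * L ^ 3 / (M : ℝ) ^ 2 ≤ ε / 8 * L ^ 3 :=
            div_le_self (by positivity) (one_le_pow₀ hM0)
          linarith
  have hsP : √(P : ℝ) ≤ √L := Real.sqrt_le_sqrt hPL1
  have hlg3 : 1 + Real.log P ≤ lg ^ 3 := hlgP.trans (by nlinarith [mul_self_nonneg (lg - 1)])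
  have hlg3' : lg ^ 2 * (1 + Real.log P) ≤ lg ^ 3 := by
    calc lg ^ 2 * (1 + Real.log P) ≤ lg ^ 2 * lg := mul_le_mul_of_nonneg_left hlgP (by positivity)
      _ = lg ^ 3 := by ring
  have t2 : K1 * (C2 * (P * R) * √(P : ℝ) * (1 + Real.log P)) ≤ K1 * C2 * L ^ 2 * (√L * lg ^ 3) := by
    calc K1 * (C2 * (P * R) * √(P : ℝ) * (1 + Real.log P)) ≤ K1 * (C2 * (L * L) * √L * lg ^ 3) := by
          gcongr
      _ = _ := by ring
  have t3 : K2 * (√L * lg ^ 2) * (R * (P * (1 + Real.log P))) ≤ K2 * L ^ 2 * (√L * lg ^ 3) := by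
    calc K2 * (√L * lg ^ 2) * (R * (P * (1 + Real.log P))) =
        K2 * √L * (R * P) * (lg ^ 2 * (1 + Real.log P)) := by ring
      _ ≤ K2 * √L * (L * L) * lg ^ 3 := by
          gcongr
      _ = _ := by ring
  have hg := hgrow L hLL1
  rw [← hlg] at hg
  have t4 : 4 * (K1 * C2 + K2) * (√L * lg ^ 3) * L ^ 2 ≤ ε / 2 * L * L ^ 2 :=
    mul_le_mul_of_nonneg_right hg (by positivity)
  have t5 : (4 * C * C1 / (M : ℝ) ^ 4 + ε) * L ^ 3 = 4 * (C * C1 / (M : ℝ) ^ 4 * L ^ 3) + ε * L ^ 3 := by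
    ring
  rw [t5]
  nlinarith [hfour, t1, t2, t3, t4]

end Pool.Agent.L0h96.LR
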